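import Pool.Agent.Helper427.Tri.Final

open Set

namespace Pool.Agent.Results.MP_7ba843_gt.NoCore

open Pool.Agent.Helper427.Tri

/-- In `X = S¹ × S¹ × S²` there is a smoothly embedded closed surface `S` of genus two which bounds
a smoothly embedded handlebody and is surjective on fundamental groups, but which is not the core of
any trisection of `X`, not even of a topological one. -/
theorem result : RegularSurf 2 ∧ ∃ S : Set X,
    BoundsHandlebody 2 S ∧ IsPathConnected S ∧ PiOneOnto S ∧
      ∀ (k : Fin 3 → ℕ) (Y : Fin 3 → Set X), IsTrisection 2 k Y → ⋂ i, Y i ≠ S :=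
  main

end Pool.Agent.Results.MP_7ba843_gt.NoCore
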